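import Pool.Agent.Y298.EX.Stm2

/-!
# Lower bound of the volume by the areas of the slices

Owner helper273, for helper298.
-/

set_option autoImplicit false

open Set Filter Metric MeasureTheory Topology

namespace Pool.Agent.Y273.EX

theorem vol_closedBall (d : ℕ) (δ : ℝ) (hδ : 0 < δ) :
    volume (closedBall (0 : Fin d → ℂ) δ) = ENNReal.ofReal ((Real.pi * δ ^ 2) ^ d) := by
  rw [closedBall_pi _ hδ.le, volume_pi_pi]
  simp only [Complex.volume_closedBall, Finset.prod_const, Finset.card_univ, Fintype.card_fin]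
  rw [ENNReal.ofReal_pow (by positivity), ENNReal.ofReal_mul Real.pi_pos.le,
    ENNReal.ofReal_pow hδ.le]
  congr 1
  rw [mul_comm]
  congr 1
  rw [← NNReal.coe_real_pi, ENNReal.ofReal_coe_nnreal]

theorem t_fub : Pool.Agent.Y298.EX.S_FUB := by
  intro d S δ α hδ hα h
  rw [← measure_toMeasurable S]
  set T := toMeasurable volume S with hT
  have hTm : MeasurableSet T := measurableSet_toMeasurable _ _
  have hST : S ⊆ T := subset_toMeasurable _ _
  have e := (volume_preserving_piFinSuccAbove (fun _ : Fin (d + 1) => ℂ) 0).symm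
  rw [← e.measure_preimage_equiv T]
  have hm : MeasurableSet ((MeasurableEquiv.piFinSuccAbove (fun _ : Fin (d + 1) => ℂ) 0).symm ⁻¹' T) :=
    e.measurable hTm
  rw [Measure.volume_eq_prod, Measure.prod_apply_symm hm, ← vol_closedBall d δ hδ,
    ← setLIntegral_const]
  refine le_trans ?_ (setLIntegral_le_lintegral (closedBall 0 δ) _)
  refine setLIntegral_mono' isClosed_closedBall.measurableSet fun x hx => ?_
  refine le_trans (h x (mem_closedBall_zero_iff.1 hx)) (measure_mono fun t ht => ?_)
  have h1 : (MeasurableEquiv.piFinSuccAbove (fun _ : Fin (d + 1) => ℂ) 0).symm (t, x) =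
      (Fin.cons t x : Fin (d + 1) → ℂ) := by
    simp only [MeasurableEquiv.piFinSuccAbove_symm_apply, Fin.insertNthEquiv_zero]
    rfl
  change (MeasurableEquiv.piFinSuccAbove (fun _ : Fin (d + 1) => ℂ) 0).symm (t, x) ∈ T
  rw [h1]
  exact hST ht

end Pool.Agent.Y273.EX
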